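import Pool.Agent.Q291.MK.Stm

set_option autoImplicit false

/-!
# Project MK: crude bounds for one step (job CRUDE)
-/

namespace Pool.Agent.Q210.MK

open Finset
open Pool.Agent.Q291.MK

lemma PBsq : PB (fun k : ℕ => (k : ℝ) ^ 2) := PB.id.pow 2

/-- the indicator of the positive integers -/
noncomputable def ipos (k : ℕ) : ℝ := if k = 0 then 0 else 1

lemma PBipos : PB ipos := (PB.const 1).of_le fun k => by
  unfold ipos
  split_ifs <;> norm_num

lemma E_ipos {a : ℕ → ℝ} (ha : AM a) : E a ipos = 1 - a 0 := by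
  have h1 : E a (fun k => if k = 0 then (1 : ℝ) else 0) = a 0 := by
    unfold E
    have : (fun k => a k * (if k = 0 then (1 : ℝ) else 0)) = fun k => if k = 0 then a 0 else 0 := by
      funext k
      split_ifs with h
      · rw [h, mul_one]
      · rw [mul_zero]
    rw [this, tsum_ite_eq]
  have h2 : PB (fun k : ℕ => if k = 0 then (1 : ℝ) else 0) := (PB.const 1).of_le fun k => by
    split_ifs <;> norm_num
  have h3 := ha.E_sub (PB.const 1) h2
  rw [ha.toLaw.E_const, h1] at h3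
  rw [← h3]
  congr 1
  funext k
  unfold ipos
  split_ifs <;> norm_num

lemma E2_sum {a : ℕ → ℝ} (ha : AM a) : E2 a (fun K L => (K : ℝ) + L) = 2 * mean a := by
  rw [ha.E2_add (PB2.fst PB.id) (PB2.snd PB.id), ha.E2_fst PB.id, ha.E2_snd PB.id]
  unfold mean
  ring

lemma E2_prod {a : ℕ → ℝ} (ha : AM a) : E2 a (fun K L => (K : ℝ) * L) = mean a ^ 2 := by
  rw [ha.E2_mul PB.id PB.id]
  unfold mean
  ring

lemma PB2sum : PB2 (fun K L => (K : ℝ) + L) := (PB2.fst PB.id).add (PB2.snd PB.id)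

lemma E2_sq {a : ℕ → ℝ} (ha : AM a) : E2 a (fun K L => ((K : ℝ) + L) ^ 2) = 2 * q2 a + 2 * mean a ^ 2 := by
  have e : (fun K L : ℕ => ((K : ℝ) + L) ^ 2) = fun K L : ℕ => ((K : ℝ) ^ 2 + (L : ℝ) ^ 2) + 2 * ((K : ℝ) * L) := by
    funext K L
    ring
  rw [e, ha.E2_add ((PB2.fst PBsq).add (PB2.snd PBsq)) ((PB2.const 2).mul ((PB2.fst PB.id).mul (PB2.snd PB.id))),
    ha.E2_add (PB2.fst PBsq) (PB2.snd PBsq), ha.E2_fst PBsq, ha.E2_snd PBsq, E2_const_mul, E2_prod ha]
  unfold q2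
  ring

lemma hm_mono1 (L : ℕ) : Monotone fun K : ℕ => hm K L := by
  refine monotone_nat_of_le_succ fun K => ?_
  unfold hm
  have h1 : (0 : ℝ) ≤ K := Nat.cast_nonneg K
  have h2 : (0 : ℝ) ≤ L := Nat.cast_nonneg L
  push_cast
  rw [div_le_div_iff₀ (by positivity) (by positivity)]
  nlinarith [mul_nonneg h2 h2, mul_nonneg h1 h2]

lemma hm_symm (K L : ℕ) : hm K L = hm L K := by
  unfold hm
  rw [mul_comm, add_comm (K : ℝ) L]

lemma hm_mono2 (K : ℕ) : Monotone fun L : ℕ => hm K L := by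
  simp_rw [hm_symm K]
  exact hm_mono1 K

lemma hm_le1 (K L : ℕ) : hm K L ≤ ((K : ℝ) + L) / 4 - 1 / 12 * ipos K := by
  unfold ipos
  have h2 : (0 : ℝ) ≤ L := Nat.cast_nonneg L
  rcases Nat.eq_zero_or_pos K with h | h
  · subst h
    rw [if_pos rfl]
    unfold hm
    simp
    positivity
  · rw [if_neg (by omega)]
    have h1 : (1 : ℝ) ≤ K := by exact_mod_cast h
    unfold hm
    rw [div_le_iff₀ (by positivity)]
    nlinarith [sq_nonneg ((K : ℝ) - L)]

lemma hm_le2 (K L : ℕ) : hm K L ≤ 2 / 5 * ((K : ℝ) * L) := by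
  unfold hm
  rcases Nat.eq_zero_or_pos K with h | h
  · subst h
    simp
  rcases Nat.eq_zero_or_pos L with h' | h'
  · subst h'
    simp
  have h1 : (1 : ℝ) ≤ K := by exact_mod_cast h
  have h2 : (1 : ℝ) ≤ L := by exact_mod_cast h'
  have h3 : 0 ≤ (K : ℝ) * L := by positivity
  rw [div_le_iff₀ (by positivity)]
  nlinarith

lemma H_lin (K L : ℕ) (c : ℝ) (φ ψ : ℕ → ℝ) : H K L (fun j => c * φ j + ψ j) = c * H K L φ + H K L ψ := by
  unfold H
  rw [Finset.mul_sum, ← Finset.sum_add_distrib]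
  exact Finset.sum_congr rfl fun j _ => by ring

lemma H_sq (h : P_HYP1) (K L : ℕ) : H K L (fun j => (j : ℝ) ^ 2) ≤ ((K : ℝ) + L) ^ 2 / 16 + ((K : ℝ) + L) / 6 := by
  obtain ⟨_, _, _, _, hc, _, hmn, _, _⟩ := h K L
  have e1 : (fun j : ℕ => (j : ℝ) ^ 2) = fun j : ℕ => 2 * (j.choose 2 : ℝ) + (j : ℝ) := by
    funext j
    rw [Nat.cast_choose_two]
    ring
  rw [e1, H_lin, hc 2, hmn, Nat.cast_choose_two, Nat.cast_choose_two]
  have e2 : gb ((K : ℝ) + L + 1 / 2) 2 = ((K : ℝ) + L + 1 / 2) * ((K : ℝ) + L - 1 / 2) / 2 := by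
    simp only [gb]
    push_cast
    ring
  rw [e2]
  unfold hm
  have hs : 0 ≤ ((K : ℝ) + L) ^ 2 / 16 + ((K : ℝ) + L) / 6 := by positivity
  rcases Nat.eq_zero_or_pos K with h | h
  · subst h
    simp at hs ⊢
    exact hs
  rcases Nat.eq_zero_or_pos L with h' | h'
  · subst h'
    simp at hs ⊢
    exact hs
  have h1 : (1 : ℝ) ≤ K := by exact_mod_cast h
  have h2 : (1 : ℝ) ≤ L := by exact_mod_cast h'
  set x : ℝ := (K : ℝ) with hx
  set y : ℝ := (L : ℝ) with hy
  have h3 : 0 < x + y + 1 / 2 := by positivity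
  have h4 : 0 < x + y - 1 / 2 := by linarith
  have e3 : 2 * (x * (x - 1) / 2 * (y * (y - 1) / 2) / ((x + y + 1 / 2) * (x + y - 1 / 2) / 2)) + x * y / (x + y + 1 / 2) =
      (x * y) * (x * y + 1 / 2) / ((x + y + 1 / 2) * (x + y - 1 / 2)) := by
    have gen : ∀ A B u v : ℝ, 0 < u → 0 < v → 2 * (A / (v * u / 2)) + B / v = (4 * A + B * u) / (v * u) := by
      intro A B u v hu hv
      field_simp
      ring
    rw [gen _ _ _ _ h4 h3]
    congr 1
    ring
  rw [e3, div_le_iff₀ (by positivity)]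
  have h5 : x * y ≤ (x + y) ^ 2 / 4 := by nlinarith [sq_nonneg (x - y)]
  have h6 : 0 ≤ x * y := by positivity
  set s := x + y with hsd
  have hs2 : 2 ≤ s := by linarith
  have h7 : (x * y) * (x * y + 1 / 2) ≤ s ^ 2 / 4 * (s ^ 2 / 4 + 1 / 2) :=
    mul_le_mul h5 (by linarith) (by positivity) (by positivity)
  refine h7.trans ?_
  have h8 : 0 ≤ s := by linarith
  nlinarith [mul_nonneg h8 (sub_nonneg.2 hs2), mul_nonneg (mul_nonneg h8 h8) (sub_nonneg.2 hs2)]

/-- **CRUDE** -/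
theorem t_CRUDE : P_HYP1 → P_TLAW → P_SLAW → P_CHEB → P_CRUDE := by
  intro hH hT hS hC a ha
  have hm0 : 0 ≤ mean a := by
    unfold mean
    have := ha.E_mono (PB.const 0) PB.id fun k => Nat.cast_nonneg k
    rwa [ha.toLaw.E_const] at this
  have hq0 : 0 ≤ q2 a := by
    unfold q2
    have := ha.E_mono (PB.const 0) PBsq fun k => sq_nonneg _
    rwa [ha.toLaw.E_const] at this
  have hCS : mean a ^ 2 ≤ (1 - a 0) * q2 a := by
    have key : ∀ t : ℝ, 0 ≤ (1 - a 0) * (t * t) + (-2 * mean a) * t + q2 a := by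
      intro t
      have h1 : 0 ≤ E a (fun k => ((k : ℝ) - t * ipos k) ^ 2) := by
        have h2 : PB (fun k : ℕ => ((k : ℝ) - t * ipos k) ^ 2) := (PB.id.sub ((PB.const t).mul PBipos)).pow 2
        have := ha.E_mono (PB.const 0) h2 fun k => sq_nonneg _
        rwa [ha.toLaw.E_const] at this
      have h2 : (fun k : ℕ => ((k : ℝ) - t * ipos k) ^ 2) =
          fun k : ℕ => ((k : ℝ) ^ 2 + (-2 * t) * (k : ℝ)) + (t * t) * ipos k := by
        funext k
        unfold ipos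
        split_ifs with h
        · subst h
          simp
        · ring
      rw [h2, ha.E_add (PBsq.add ((PB.const _).mul PB.id)) ((PB.const _).mul PBipos),
        ha.E_add PBsq ((PB.const _).mul PB.id), E_const_mul, E_const_mul, E_ipos ha] at h1
      unfold q2 mean
      linarith
    have h3 := discrim_le_zero key
    unfold discrim at h3
    nlinarith
  have hTl := (hT a ha).2
  have hmT : mean (T a) ≤ E2 a (fun K L => hm K L) := by
    obtain ⟨h1, h2⟩ := hTl _ PB.id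
    have h3 : (fun K L => H K L (fun j => (j : ℝ))) = fun K L => hm K L := by
      funext K L
      exact (hH K L).2.2.2.2.2.2.1
    rw [h3] at h1 h2
    unfold mean
    rw [h2]
    exact (hC a ha).2 _ h1 hm_mono1 hm_mono2
  have hPhm : PB2 (fun K L => hm K L) := by
    obtain ⟨h1, _⟩ := hTl _ PB.id
    have h3 : (fun K L => H K L (fun j => (j : ℝ))) = fun K L => hm K L := by
      funext K L
      exact (hH K L).2.2.2.2.2.2.1
    rwa [h3] at h1
  refine ⟨hm0, hq0, hCS, ?_, ?_, ?_, ?_, ?_⟩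
  · refine hmT.trans ?_
    have hP : PB2 (fun K L => ((K : ℝ) + L) / 4 - 1 / 12 * ipos K) :=
      (PB2sum.div_const 4).sub ((PB2.const _).mul (PB2.fst PBipos))
    refine (ha.E2_mono hPhm hP hm_le1).trans (le_of_eq ?_)
    rw [ha.E2_sub (PB2sum.div_const 4) ((PB2.const _).mul (PB2.fst PBipos)), E2_const_mul, ha.E2_fst PBipos, E_ipos ha]
    have e : (fun K L : ℕ => ((K : ℝ) + L) / 4) = fun K L : ℕ => (1 / 4) * ((K : ℝ) + L) := by
      funext K L
      ring
    rw [e, E2_const_mul, E2_sum ha]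
    ring
  · refine hmT.trans ?_
    have hP : PB2 (fun K L => 2 / 5 * ((K : ℝ) * L)) := (PB2.const _).mul ((PB2.fst PB.id).mul (PB2.snd PB.id))
    refine (ha.E2_mono hPhm hP hm_le2).trans (le_of_eq ?_)
    rw [E2_const_mul, E2_prod ha]
  · obtain ⟨h1, h2⟩ := hTl _ PBsq
    unfold q2 at *
    rw [h2]
    have hP : PB2 (fun K L => ((K : ℝ) + L) ^ 2 / 16 + ((K : ℝ) + L) / 6) :=
      ((PB2sum.pow 2).div_const 16).add (PB2sum.div_const 6)
    refine (ha.Ew_mono h1 hP fun K L => H_sq hH K L).trans ?_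
    refine ((hC a ha).2 _ hP ?_ ?_).trans (le_of_eq ?_)
    · intro L K K' hK
      have h3 : (K : ℝ) ≤ K' := by exact_mod_cast hK
      have h4 : (0 : ℝ) ≤ K := Nat.cast_nonneg K
      have h5 : (0 : ℝ) ≤ L := Nat.cast_nonneg L
      simp only
      gcongr
    · intro K L L' hL
      have h3 : (L : ℝ) ≤ L' := by exact_mod_cast hL
      have h4 : (0 : ℝ) ≤ K := Nat.cast_nonneg K
      have h5 : (0 : ℝ) ≤ L := Nat.cast_nonneg L
      simp only
      gcongr
    · rw [ha.E2_add ((PB2sum.pow 2).div_const 16) (PB2sum.div_const 6)]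
      have e : (fun K L : ℕ => ((K : ℝ) + L) ^ 2 / 16) = fun K L : ℕ => (1 / 16) * ((K : ℝ) + L) ^ 2 := by
        funext K L
        ring
      have e' : (fun K L : ℕ => ((K : ℝ) + L) / 6) = fun K L : ℕ => (1 / 6) * ((K : ℝ) + L) := by
        funext K L
        ring
      rw [e, e', E2_const_mul, E2_const_mul, E2_sum ha, E2_sq ha]
      unfold q2
      ring
  · obtain ⟨_, h2⟩ := (hS a ha).2 _ PB.id
    have e : (fun K L : ℕ => (((K + L : ℕ)) : ℝ)) = fun K L : ℕ => (K : ℝ) + L := by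
      funext K L
      push_cast
      rfl
    rw [e, E2_sum ha] at h2
    exact h2
  · obtain ⟨_, h2⟩ := (hS a ha).2 _ PBsq
    have e : (fun K L : ℕ => (((K + L : ℕ)) : ℝ) ^ 2) = fun K L : ℕ => ((K : ℝ) + L) ^ 2 := by
      funext K L
      push_cast
      rfl
    rw [e, E2_sq ha] at h2
    exact h2

end Pool.Agent.Q210.MK
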