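import Pool.Agent.Q291.MK.Stm

set_option autoImplicit false

/-!
# Project MK: two hypergeometric identities (job HI)
-/

namespace Pool.Agent.Q210.MK

open Finset
open Pool.Agent.Q291.MK

lemma gb_succ (x : ℝ) (k : ℕ) : gb x (k + 1) = gb x k * (x - k) / (k + 1) := rfl

lemma gb_abs (x : ℝ) (d : ℕ) : gb (x + 1) (d + 1) = gb x d * (x + 1) / (d + 1) := by
  induction d with
  | zero => simp only [gb_succ, gb]; push_cast; ring
  | succ d ih =>
    rw [gb_succ (x + 1) (d + 1), ih, gb_succ x d]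
    push_cast
    field_simp
    ring

lemma gb_pos {x : ℝ} (k : ℕ) (h : (k : ℝ) < x + 1) : 0 < gb x k := by
  induction k with
  | zero => simp [gb]
  | succ k ih =>
    push_cast at h
    rw [gb_succ]
    have h1 : 0 < gb x k := ih (by linarith)
    have h2 : 0 < x - k := by linarith
    positivity

/-- the relation between the two binomials -/
lemma gb_I (j : ℕ) : ∀ d : ℕ, gb ((j : ℝ) + d + 1 / 2) d * I j = ((j + d + 2).choose d : ℝ) * I (j + d) := by
  intro d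
  induction d with
  | zero => simp [gb]
  | succ d ih =>
    have e1 : (j : ℝ) + ((d + 1 : ℕ) : ℝ) + 1 / 2 = ((j : ℝ) + d + 1 / 2) + 1 := by push_cast; ring
    have e2 : ((j + (d + 1) + 2).choose (d + 1) : ℝ) = ((j + d + 2).choose d : ℝ) * (j + d + 3) / (d + 1) := by
      have h := Nat.add_one_mul_choose_eq (j + d + 2) d
      have h' : ((j + d + 2 : ℕ) + 1 : ℝ) * ((j + d + 2).choose d : ℝ) =
          ((j + d + 2 + 1).choose (d + 1) : ℝ) * ((d : ℝ) + 1) := by exact_mod_cast h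
      rw [show j + (d + 1) + 2 = j + d + 2 + 1 by ring, eq_div_iff (by positivity), ← h']
      push_cast
      ring
    have e3 : I (j + (d + 1)) = I (j + d) * ((2 * (j + d : ℕ) + 3) / (2 * (j + d : ℕ) + 6)) := by
      rw [show j + (d + 1) = j + d + 1 by ring, I_succ]
    rw [e1, gb_abs, e2, e3]
    push_cast
    have h3 : (2 * ((j : ℝ) + d) + 6) ≠ 0 := by positivity
    have h4 : (d : ℝ) + 1 ≠ 0 := by positivity
    generalize gb ((j : ℝ) + d + 1 / 2) d = g at ih ⊢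
    have h5 : g * ((j : ℝ) + d + 1 / 2 + 1) / (d + 1) * I j = (g * I j) * (((j : ℝ) + d + 1 / 2 + 1) / (d + 1)) := by ring
    rw [h5, ih]
    field_simp
    ring

lemma gb_I' {K j : ℕ} (h : j ≤ K) : gb ((K : ℝ) + 1 / 2) (K - j) * I j = ((K + 2).choose (K - j) : ℝ) * I K := by
  obtain ⟨d, rfl⟩ := Nat.exists_eq_add_of_le h
  have := gb_I j d
  rw [Nat.add_sub_cancel_left]
  push_cast at this ⊢
  exact this

lemma H_eq (K L : ℕ) (φ : ℕ → ℝ) : H K L φ =
    (∑ j ∈ range (K + 1), (L.choose j : ℝ) * (gb ((K : ℝ) + 1 / 2) (K - j) * φ j)) / gb ((K : ℝ) + L + 1 / 2) K := by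
  unfold H
  rw [Finset.sum_div]
  refine Finset.sum_congr rfl fun j hj => ?_
  rw [Finset.mem_range] at hj
  unfold hyp
  rw [if_pos (by omega)]
  ring

lemma den_ne (K L : ℕ) : gb ((K : ℝ) + L + 1 / 2) K ≠ 0 := by
  refine (gb_pos K ?_).ne'
  have : (0 : ℝ) ≤ L := Nat.cast_nonneg L
  linarith

lemma den_I (K L : ℕ) : gb ((K : ℝ) + L + 1 / 2) K * I L = ((K + L + 2).choose K : ℝ) * I (K + L) := by
  have := gb_I L K
  rw [show (L : ℝ) + K + 1 / 2 = (K : ℝ) + L + 1 / 2 by ring, show L + K + 2 = K + L + 2 by ring,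
    show L + K = K + L by ring] at this
  exact this

lemma vander (m n k : ℕ) : ∑ j ∈ range (k + 1), (m.choose j : ℝ) * (n.choose (k - j) : ℝ) = ((m + n).choose k : ℝ) := by
  rw [Nat.add_choose_eq, Finset.Nat.sum_antidiagonal_eq_sum_range_succ (fun i j => m.choose i * n.choose j)]
  push_cast
  rfl

theorem hi1 (K L : ℕ) : I (K + L) * H K L I = I K * I L := by
  have h1 : ∑ j ∈ range (K + 1), (L.choose j : ℝ) * (gb ((K : ℝ) + 1 / 2) (K - j) * I j) =
      I K * ((K + L + 2).choose K : ℝ) := by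
    have h2 : ∀ j ∈ range (K + 1), (L.choose j : ℝ) * (gb ((K : ℝ) + 1 / 2) (K - j) * I j) =
        I K * ((L.choose j : ℝ) * ((K + 2).choose (K - j) : ℝ)) := by
      intro j hj
      rw [Finset.mem_range] at hj
      rw [gb_I' (by omega)]
      ring
    rw [Finset.sum_congr rfl h2, ← Finset.mul_sum, vander, show L + (K + 2) = K + L + 2 by ring]
  rw [H_eq, h1, mul_div_assoc', div_eq_iff (den_ne K L)]
  linear_combination (-I K) * den_I K L

theorem hi2 (K L : ℕ) : I (K + L) * H K L (fun j => I j * ((j : ℝ) / (j + 3))) =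
    (I K * ((K : ℝ) / (K + 3))) * (I L * ((L : ℝ) / (L + 3))) := by
  rcases K with _ | K
  · rw [H_eq]
    simp
  rcases L with _ | L
  · rw [H_eq]
    have : ∑ j ∈ range (K + 1 + 1), ((0 : ℕ).choose j : ℝ) * (gb (((K + 1 : ℕ) : ℝ) + 1 / 2) (K + 1 - j) *
        (I j * ((j : ℝ) / (j + 3)))) = 0 := by
      refine Finset.sum_eq_zero fun j _ => ?_
      rcases j with _ | j
      · simp
      · simp
    rw [this]
    simp
  have h1 : ∑ j ∈ range (K + 1 + 1), ((L + 1).choose j : ℝ) * (gb (((K + 1 : ℕ) : ℝ) + 1 / 2) (K + 1 - j) *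
      (I j * ((j : ℝ) / (j + 3)))) = I (K + 1) * (((L : ℝ) + 1) / (K + 4)) * ((K + L + 4).choose K : ℝ) := by
    rw [Finset.sum_range_succ']
    simp only [Nat.cast_zero, zero_div, mul_zero, add_zero]
    have h2 : ∀ i ∈ range (K + 1), ((L + 1).choose (i + 1) : ℝ) * (gb (((K + 1 : ℕ) : ℝ) + 1 / 2) (K + 1 - (i + 1)) *
        (I (i + 1) * (((i + 1 : ℕ) : ℝ) / (((i + 1 : ℕ) : ℝ) + 3)))) =
        I (K + 1) * (((L : ℝ) + 1) / (K + 4)) * ((L.choose i : ℝ) * ((K + 4).choose (K - i) : ℝ)) := by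
      intro i hi
      rw [Finset.mem_range] at hi
      have e1 := gb_I' (K := K + 1) (j := i + 1) (by omega)
      rw [show K + 1 - (i + 1) = K - i by omega] at e1 ⊢
      rw [show K + 1 + 2 = K + 3 by ring] at e1
      have e2 : ((L + 1).choose (i + 1) : ℝ) * ((i : ℝ) + 1) = ((L : ℝ) + 1) * (L.choose i : ℝ) := by
        have := Nat.add_one_mul_choose_eq L i
        exact_mod_cast this.symm
      have e3 : ((K + 3).choose (K - i) : ℝ) * ((K : ℝ) + 4) = ((K + 4).choose (K - i) : ℝ) * ((i : ℝ) + 4) := by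
        have h3 := Nat.choose_mul_succ_eq (K + 3) (K - i)
        have h4 : K + 3 + 1 - (K - i) = i + 4 := by omega
        rw [h4] at h3
        exact_mod_cast h3
      have e4 : ((K + 3).choose (K - i) : ℝ) = ((K + 4).choose (K - i) : ℝ) * ((i : ℝ) + 4) / ((K : ℝ) + 4) := by
        rw [eq_div_iff (by positivity)]
        exact e3
      have e5 : gb (((K + 1 : ℕ) : ℝ) + 1 / 2) (K - i) * (I (i + 1) * (((i + 1 : ℕ) : ℝ) / (((i + 1 : ℕ) : ℝ) + 3))) =
          (((K + 4).choose (K - i) : ℝ) * ((i : ℝ) + 4) / ((K : ℝ) + 4) * I (K + 1)) * (((i : ℝ) + 1) / ((i : ℝ) + 4)) := by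
        rw [← e4, ← e1]
        push_cast
        ring
      rw [e5]
      have h5 : (i : ℝ) + 4 ≠ 0 := by positivity
      have h6 : (K : ℝ) + 4 ≠ 0 := by positivity
      field_simp
      linear_combination (((K + 4).choose (K - i) : ℝ) * I (K + 1)) * e2
    rw [Finset.sum_congr rfl h2, ← Finset.mul_sum, vander, show L + (K + 4) = K + L + 4 by ring]
  rw [H_eq, h1, mul_div_assoc', div_eq_iff (den_ne (K + 1) (L + 1))]
  have h3 := den_I (K + 1) (L + 1)
  have h4 : ((K + 1 + (L + 1) + 2).choose (K + 1) : ℝ) * ((K : ℝ) + 1) = ((K + L + 4).choose K : ℝ) * ((L : ℝ) + 4) := by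
    have h5 := Nat.choose_succ_right_eq (K + L + 4) K
    rw [show K + L + 4 - K = L + 4 by omega] at h5
    rw [show K + 1 + (L + 1) + 2 = K + L + 4 by ring]
    exact_mod_cast h5
  have h6 : I (K + 1) * (((K + 1 : ℕ) : ℝ) / (((K + 1 : ℕ) : ℝ) + 3)) * (I (L + 1) * (((L + 1 : ℕ) : ℝ) / (((L + 1 : ℕ) : ℝ) + 3))) *
      gb (((K + 1 : ℕ) : ℝ) + ((L + 1 : ℕ) : ℝ) + 1 / 2) (K + 1) =
      I (K + 1) * (((K + 1 : ℕ) : ℝ) / (((K + 1 : ℕ) : ℝ) + 3)) * (((L + 1 : ℕ) : ℝ) / (((L + 1 : ℕ) : ℝ) + 3)) *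
      (((K + 1 + (L + 1) + 2).choose (K + 1) : ℝ) * I (K + 1 + (L + 1))) := by
    rw [← h3]
    ring
  rw [h6]
  push_cast
  have h7 : (K : ℝ) + 1 + 3 ≠ 0 := by positivity
  have h8 : (L : ℝ) + 1 + 3 ≠ 0 := by positivity
  have h9 : (K : ℝ) + 4 ≠ 0 := by positivity
  have e9 : (K : ℝ) + 1 + 3 = (K : ℝ) + 4 := by ring
  have e10 : (L : ℝ) + 1 + 3 = (L : ℝ) + 4 := by ring
  have h10 : (L : ℝ) + 4 ≠ 0 := by positivity
  rw [e9, e10]
  field_simp
  linear_combination (-I (K + 1 + (L + 1)) * I (K + 1)) * h4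

/-- **HI** (unconditional) -/
theorem hi : P_HI := fun K L => ⟨hi1 K L, hi2 K L⟩

theorem t_HI : P_HYP1 → P_GRP → P_HI := fun _ _ => hi

end Pool.Agent.Q210.MK
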