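import Pool.Agent.Q291.MK.Stm

set_option autoImplicit false

/-!
# Project MK: the Poisson law (job POIS)
-/

namespace Pool.Agent.Q210.MK

open Finset
open Pool.Agent.Q291.MK

lemma pois_nn {m : ℝ} (hm : 0 ≤ m) (k : ℕ) : 0 ≤ pois m k := by
  unfold pois
  positivity

lemma hs_exp (x : ℝ) : HasSum (fun k : ℕ => x ^ k / (k.factorial : ℝ)) (Real.exp x) := by
  rw [Real.exp_eq_exp_ℝ]
  exact NormedSpace.expSeries_div_hasSum_exp x

lemma pois_gen (m t : ℝ) : HasSum (fun k : ℕ => pois m k * t ^ k) (Real.exp (m * (t - 1))) := by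
  have h := (hs_exp (m * t)).mul_left (Real.exp (-m))
  have e : Real.exp (-m) * Real.exp (m * t) = Real.exp (m * (t - 1)) := by
    rw [← Real.exp_add]
    congr 1
    ring
  rw [e] at h
  have e2 : (fun k : ℕ => pois m k * t ^ k) = fun k : ℕ => Real.exp (-m) * ((m * t) ^ k / (k.factorial : ℝ)) := by
    funext k
    unfold pois
    rw [mul_pow]
    ring
  rw [e2]
  exact h

lemma pois_AM {m : ℝ} (hm : 0 ≤ m) : AM (pois m) where
  nn := pois_nn hm
  one := by
    have h := pois_gen m 1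
    simpa using h
  mom q := by
    have h := (pois_gen m (Real.exp 1)).summable.mul_left (q.factorial : ℝ)
    refine Summable.of_nonneg_of_le (fun k => mul_nonneg (pois_nn hm k) (by positivity)) (fun k => ?_) h
    have h1 : (k : ℝ) ^ q / (q.factorial : ℝ) ≤ Real.exp k := Real.pow_div_factorial_le_exp _ (Nat.cast_nonneg k) q
    have hq : (0 : ℝ) < (q.factorial : ℝ) := by exact_mod_cast q.factorial_pos
    rw [div_le_iff₀ hq] at h1
    have h2 : Real.exp 1 ^ k = Real.exp k := by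
      rw [← Real.exp_nat_mul, mul_one]
    rw [h2]
    calc pois m k * (k : ℝ) ^ q ≤ pois m k * (Real.exp k * q.factorial) := mul_le_mul_of_nonneg_left h1 (pois_nn hm k)
      _ = _ := by ring

lemma PB_shift {φ : ℕ → ℝ} (h : PB φ) : PB (fun k => φ (k + 1)) := by
  obtain ⟨C, q, hC, h⟩ := h.nonneg_C
  refine ⟨C * 2 ^ q, q, fun k => (h (k + 1)).trans ?_⟩
  have h1 : (1 : ℝ) + ((k + 1 : ℕ) : ℝ) ≤ 2 * (1 + k) := by
    push_cast
    have : (0 : ℝ) ≤ k := Nat.cast_nonneg k
    linarith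
  calc C * (1 + ((k + 1 : ℕ) : ℝ)) ^ q ≤ C * (2 * (1 + (k : ℝ))) ^ q := by gcongr
    _ = _ := by rw [mul_pow]; ring

/-- Stein's identity -/
lemma stein {m : ℝ} (hm : 0 ≤ m) {φ : ℕ → ℝ} (h : PB φ) :
    E (pois m) (fun k => (k : ℝ) * φ k) = m * E (pois m) (fun k => φ (k + 1)) := by
  have hs := (pois_AM hm).summ (PB.id.mul h)
  unfold E
  rw [hs.tsum_eq_zero_add]
  simp only [Nat.cast_zero, zero_mul, mul_zero, zero_add]
  rw [← tsum_mul_left]
  refine tsum_congr fun k => ?_
  unfold pois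
  rw [Nat.factorial_succ]
  push_cast
  have h1 : (k : ℝ) + 1 ≠ 0 := by positivity
  have h2 : (k.factorial : ℝ) ≠ 0 := by exact_mod_cast k.factorial_ne_zero
  field_simp
  ring

lemma E_fsum {a : ℕ → ℝ} (ha : AM a) {ι : Type*} (s : Finset ι) (φ : ι → ℕ → ℝ) (h : ∀ i, PB (φ i)) :
    E a (fun k => ∑ i ∈ s, φ i k) = ∑ i ∈ s, E a (φ i) := by
  unfold E
  rw [← Summable.tsum_finsetSum fun i _ => ha.summ (h i)]
  exact tsum_congr fun k => by rw [Finset.mul_sum]

lemma PB_c (m : ℝ) (n : ℕ) : PB (fun k : ℕ => ((k : ℝ) - m) ^ n) := (PB.id.sub (PB.const m)).pow n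

/-- the recursion of the central moments -/
lemma c_rec {m : ℝ} (hm : 0 ≤ m) (n : ℕ) : E (pois m) (fun k => ((k : ℝ) - m) ^ (n + 1)) =
    m * ∑ i ∈ range n, (n.choose i : ℝ) * E (pois m) (fun k => ((k : ℝ) - m) ^ i) := by
  have ha := pois_AM hm
  have h1 : E (pois m) (fun k => ((k : ℝ) - m) ^ (n + 1)) =
      E (pois m) (fun k => (k : ℝ) * ((k : ℝ) - m) ^ n) - m * E (pois m) (fun k => ((k : ℝ) - m) ^ n) := by
    rw [← E_const_mul, ← ha.E_sub (PB.id.mul (PB_c m n)) ((PB.const m).mul (PB_c m n))]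
    congr 1
    funext k
    ring
  have h2 : E (pois m) (fun k => (((k + 1 : ℕ) : ℝ) - m) ^ n) =
      ∑ i ∈ range (n + 1), (n.choose i : ℝ) * E (pois m) (fun k => ((k : ℝ) - m) ^ i) := by
    have h3 : (fun k : ℕ => (((k + 1 : ℕ) : ℝ) - m) ^ n) =
        fun k : ℕ => ∑ i ∈ range (n + 1), (n.choose i : ℝ) * ((k : ℝ) - m) ^ i := by
      funext k
      have h4 : ((k + 1 : ℕ) : ℝ) - m = ((k : ℝ) - m) + 1 := by push_cast; ring
      rw [h4, add_pow]
      refine Finset.sum_congr rfl fun i _ => ?_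
      rw [one_pow]
      ring
    rw [h3, E_fsum ha _ _ fun i => (PB.const _).mul (PB_c m i)]
    refine Finset.sum_congr rfl fun i _ => ?_
    rw [E_const_mul]
  rw [h1, stein hm (PB_c m n), h2, Finset.sum_range_succ, Nat.choose_self]
  push_cast
  ring

/-- **POIS** -/
theorem t_POIS : P_POIS := by
  intro m hm
  have ha := pois_AM hm
  have c0 : E (pois m) (fun k => ((k : ℝ) - m) ^ 0) = 1 := by
    simp only [pow_zero]
    exact ha.toLaw.E_const 1
  have c1 : E (pois m) (fun k => ((k : ℝ) - m) ^ 1) = 0 := by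
    have := c_rec hm 0
    simpa using this
  have c2 : E (pois m) (fun k => ((k : ℝ) - m) ^ 2) = m := by
    have := c_rec hm 1
    rw [this]
    simp only [Finset.sum_range_succ, Finset.sum_range_zero, c0]
    norm_num
  have c3 : E (pois m) (fun k => ((k : ℝ) - m) ^ 3) = m := by
    have := c_rec hm 2
    rw [this]
    simp only [Finset.sum_range_succ, Finset.sum_range_zero, c0, c1]
    norm_num
  have c4 : E (pois m) (fun k => ((k : ℝ) - m) ^ 4) = m * (1 + 3 * m) := by
    have := c_rec hm 3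
    rw [this]
    simp only [Finset.sum_range_succ, Finset.sum_range_zero, c0, c1, c2]
    norm_num [Nat.choose]
  have c5 : E (pois m) (fun k => ((k : ℝ) - m) ^ 5) = m * (1 + 10 * m) := by
    have := c_rec hm 4
    rw [this]
    simp only [Finset.sum_range_succ, Finset.sum_range_zero, c0, c1, c2, c3]
    norm_num [Nat.choose]
    left
    ring
  have c6 : E (pois m) (fun k => ((k : ℝ) - m) ^ 6) = m * (1 + 25 * m + 15 * m ^ 2) := by
    have := c_rec hm 5
    rw [this]
    simp only [Finset.sum_range_succ, Finset.sum_range_zero, c0, c1, c2, c3, c4]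
    norm_num [Nat.choose]
    left
    ring
  have c7 : E (pois m) (fun k => ((k : ℝ) - m) ^ 7) = m * (1 + 56 * m + 105 * m ^ 2) := by
    have := c_rec hm 6
    rw [this]
    simp only [Finset.sum_range_succ, Finset.sum_range_zero, c0, c1, c2, c3, c4, c5]
    norm_num [Nat.choose]
    left
    ring
  have c8 : E (pois m) (fun k => ((k : ℝ) - m) ^ 8) = m * (1 + 119 * m + 490 * m ^ 2 + 105 * m ^ 3) := by
    have := c_rec hm 7
    rw [this]
    simp only [Finset.sum_range_succ, Finset.sum_range_zero, c0, c1, c2, c3, c4, c5, c6]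
    norm_num [Nat.choose]
    left
    ring
  have hmean : mean (pois m) = m := by
    unfold mean
    have h := ha.E_add (PB_c m 1) (PB.const m)
    rw [c1, ha.toLaw.E_const, zero_add] at h
    have e : (fun k : ℕ => ((k : ℝ) - m) ^ 1 + m) = fun k : ℕ => (k : ℝ) := by
      funext k
      ring
    rw [e] at h
    exact h
  refine ⟨ha, hmean, ?_, ?_, ?_, fun t => (pois_gen m t).tsum_eq⟩
  · unfold vr
    rw [hmean]
    exact c2
  · unfold k3
    rw [hmean]
    exact c3
  · intro h1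
    unfold m8
    rw [hmean, c8]
    have h2 : m ≤ m ^ 4 := by
      calc m = m ^ 1 := (pow_one m).symm
        _ ≤ m ^ 4 := pow_le_pow_right₀ h1 (by norm_num)
    have h3 : m ^ 2 ≤ m ^ 4 := pow_le_pow_right₀ h1 (by norm_num)
    have h4 : m ^ 3 ≤ m ^ 4 := pow_le_pow_right₀ h1 (by norm_num)
    have h5 : 0 ≤ m ^ 4 := by positivity
    nlinarith

end Pool.Agent.Q210.MK
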